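import Mathlib

set_option autoImplicit false

open Filter Topology

namespace Pool.Agent.Results.MP_2e9c83_an.Universal

universe u

variable {𝕜 : Type} [RCLike 𝕜] {X Y : Type u} [NormedAddCommGroup X] [NormedSpace 𝕜 X]
  [NormedAddCommGroup Y] [NormedSpace 𝕜 Y]

/-- absolutely strongly exposing operators -/
def ASE (T : X →L[𝕜] Y) : Prop :=
  ∃ x₀ : X, ‖x₀‖ = 1 ∧ ∀ x : ℕ → X, (∀ n, ‖x n‖ ≤ 1) →
    Tendsto (fun n => ‖T (x n)‖) atTop (𝓝 ‖T‖) → ∃ (σ : ℕ → ℕ) (c : 𝕜), StrictMono σ ∧ ‖c‖ = 1 ∧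
      Tendsto (fun n => x (σ n)) atTop (𝓝 (c • x₀))

/-- range strongly exposing operators -/
def RSE (T : X →L[𝕜] Y) : Prop :=
  ∃ x₀ : X, ‖x₀‖ = 1 ∧ ∀ x : ℕ → X, (∀ n, ‖x n‖ ≤ 1) →
    Tendsto (fun n => ‖T (x n)‖) atTop (𝓝 ‖T‖) → ∃ (σ : ℕ → ℕ) (c : 𝕜), StrictMono σ ∧ ‖c‖ = 1 ∧
      Tendsto (fun n => T (x (σ n))) atTop (𝓝 (c • T x₀))

variable (𝕜 X Y)

/-- the pair `(X, Y)` has the BPBp-ASE -/
def BPBpASE : Prop :=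
  ∀ ε : ℝ, 0 < ε → ∃ η : ℝ, 0 < η ∧ η < ε ∧ ∀ (T : X →L[𝕜] Y) (x : X), ‖T‖ = 1 → ‖x‖ = 1 →
    1 - η < ‖T x‖ → ∃ (S : X →L[𝕜] Y) (x₀ : X), ASE S ∧ ‖x₀‖ = 1 ∧ ‖S‖ = 1 ∧ ‖S x₀‖ = 1 ∧
      ‖S - T‖ < ε ∧ ‖x - x₀‖ < ε

/-- the pair `(X, Y)` has the BPBp-RSE -/
def BPBpRSE : Prop :=
  ∀ ε : ℝ, 0 < ε → ∃ η : ℝ, 0 < η ∧ η < ε ∧ ∀ (T : X →L[𝕜] Y) (x : X), ‖T‖ = 1 → ‖x‖ = 1 →
    1 - η < ‖T x‖ → ∃ (S : X →L[𝕜] Y) (x₀ : X), RSE S ∧ ‖x₀‖ = 1 ∧ ‖S‖ = 1 ∧ ‖S x₀‖ = 1 ∧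
      ‖S - T‖ < ε ∧ ‖x - x₀‖ < ε

/-- Every universal BPBp-RSE domain is a universal BPBp-ASE domain. -/
theorem result (𝕜 : Type) [RCLike 𝕜] (X : Type u) [NormedAddCommGroup X] [NormedSpace 𝕜 X]
    [CompleteSpace X]
    (h : ∀ (Z : Type u) [NormedAddCommGroup Z] [NormedSpace 𝕜 Z] [CompleteSpace Z],
      BPBpRSE 𝕜 X Z)
    (Y : Type u) [NormedAddCommGroup Y] [NormedSpace 𝕜 Y] [CompleteSpace Y] :
    BPBpASE 𝕜 X Y := by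
  intro ε hε
  obtain ⟨η, h1, h2, h⟩ := h (Y × X) (min ε (1 / 4)) (lt_min hε (by norm_num))
  refine ⟨η, h1, h2.trans_le (min_le_left _ _), fun T x hT hx hTx => ?_⟩
  let J : X →L[𝕜] X := ((1 / 2 : ℝ) : 𝕜) • ContinuousLinearMap.id 𝕜 X
  have hJ : ∀ z, ‖J z‖ = 1 / 2 * ‖z‖ := fun z => by
    show ‖((1 / 2 : ℝ) : 𝕜) • z‖ = _
    rw [norm_smul, RCLike.norm_ofReal, abs_of_pos one_half_pos]
  have hJ1 : ‖J‖ ≤ 1 / 2 := J.opNorm_le_bound one_half_pos.le fun z => (hJ z).le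
  obtain ⟨S, x₀, ⟨x₁, k0, k1⟩, k2, k3, k4, k5, k6⟩ := h (T.prod J) x
    (by rw [ContinuousLinearMap.opNorm_prod, Prod.norm_def, hT]; exact max_eq_left (by linarith)) hx
    (hTx.trans_le (norm_fst_le (T.prod J x)))
  have k7 : ∀ z, ‖(S z).2 - J z‖ ≤ 1 / 4 * ‖z‖ := fun z => (norm_snd_le ((S - T.prod J) z)).trans
    ((S - T.prod J).le_of_opNorm_le (k5.le.trans (min_le_right _ _)) z)
  let A : X →L[𝕜] Y := (ContinuousLinearMap.fst 𝕜 Y X).comp S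
  have a1 : ∀ z, ‖A z‖ ≤ ‖S z‖ := fun z => norm_fst_le (S z)
  have a2 : ‖A‖ ≤ 1 := A.opNorm_le_bound zero_le_one fun z => (a1 z).trans (S.le_of_opNorm_le k3.le z)
  have a3 : ‖A x₀‖ = 1 := by
    have h3 := norm_le_norm_add_norm_sub' (S x₀).2 (J x₀)
    have h4 := k7 x₀
    rw [hJ] at h3
    rw [Prod.norm_def] at k4
    rcases max_choice ‖(S x₀).1‖ ‖(S x₀).2‖ with h5 | h5
    · exact h5.symm.trans k4
    · linarith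
  have a4 : ‖A‖ = 1 := le_antisymm a2 (by simpa [a3, k2] using A.le_opNorm x₀)
  refine ⟨A, x₀, ⟨x₁, k0, fun z hz hl => ?_⟩, k2, a4, a3, lt_of_le_of_lt ?_ (k5.trans_le
    (min_le_left _ _)), k6.trans_le (min_le_left _ _)⟩
  · obtain ⟨σ, c, s1, s2, s3⟩ := k1 z hz (tendsto_of_tendsto_of_tendsto_of_le_of_le
      (by rwa [k3, ← a4]) tendsto_const_nhds (fun n => a1 _) fun n => S.unit_le_opNorm _ (hz n))
    refine ⟨σ, c, s1, s2, tendsto_iff_norm_sub_tendsto_zero.2 ?_⟩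
    have h3 := (tendsto_iff_norm_sub_tendsto_zero.1 s3).const_mul 4
    rw [mul_zero] at h3
    refine squeeze_zero (fun n => norm_nonneg _) (fun n => ?_) h3
    have h4 := k7 (z (σ n) - c • x₁)
    have h5 := norm_le_norm_add_norm_sub (S (z (σ n) - c • x₁)).2 (J (z (σ n) - c • x₁))
    have h6 := norm_snd_le (S (z (σ n) - c • x₁))
    rw [hJ] at h5
    rw [← map_smul, ← map_sub]
    linarith
  · exact (A - T).opNorm_le_bound (norm_nonneg _) fun z =>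
      (norm_fst_le ((S - T.prod J) z)).trans ((S - T.prod J).le_opNorm z)

end Pool.Agent.Results.MP_2e9c83_an.Universal
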